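import Pool.Agent.Q240.EX.Stm6
import Pool.Agent.Q237.CD.SpB

set_option autoImplicit false

/-!
# Project EX (helper240), job AdG: Gaussian weights are admissible. Author of this file: helper149.
-/

open Polynomial Filter Topology Finset MeasureTheory
open Pool.Agent.H24R2.JP (XX)
open Pool.Agent.Q240.CD

namespace Pool.Agent.Q149.EX

open Pool.Agent.Q240.EX

theorem one_add_le_exp {y : ℝ} (hy : 0 ≤ y) : 1 + y ≤ Real.exp (3 * y ^ (7 / 8 : ℝ)) := by
  have h4 : 0 ≤ y ^ (7 / 8 : ℝ) := Real.rpow_nonneg hy _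
  by_cases h1 : y ≤ 1
  · have h2 : y ≤ y ^ (7 / 8 : ℝ) := by
      rcases hy.eq_or_lt with h | h
      · rw [← h]
        exact Real.rpow_nonneg le_rfl _
      · calc y = y ^ (1 : ℝ) := (Real.rpow_one y).symm
          _ ≤ y ^ (7 / 8 : ℝ) := Real.rpow_le_rpow_of_exponent_ge h h1 (by norm_num)
    have h3 := Real.add_one_le_exp (3 * y ^ (7 / 8 : ℝ))
    linarith
  · push Not at h1
    have h0 : 0 < y := by linarith
    have h5 : 1 ≤ y ^ (7 / 8 : ℝ) := Real.one_le_rpow h1.le (by norm_num)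
    have h6 : y ≤ Real.exp (y ^ (7 / 8 : ℝ) / (7 / 8)) := by
      have := Real.log_le_rpow_div hy (show (0 : ℝ) < 7 / 8 by norm_num)
      calc y = Real.exp (Real.log y) := (Real.exp_log h0).symm
        _ ≤ _ := Real.exp_le_exp.2 this
    have h7 : 2 ≤ Real.exp (y ^ (7 / 8 : ℝ)) := by
      have := Real.add_one_le_exp (y ^ (7 / 8 : ℝ))
      linarith
    calc 1 + y ≤ 2 * y := by linarith
      _ ≤ Real.exp (y ^ (7 / 8 : ℝ)) * Real.exp (y ^ (7 / 8 : ℝ) / (7 / 8)) :=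
        mul_le_mul h7 h6 hy (Real.exp_pos _).le
      _ = Real.exp (y ^ (7 / 8 : ℝ) + y ^ (7 / 8 : ℝ) / (7 / 8)) := (Real.exp_add _ _).symm
      _ ≤ _ := Real.exp_le_exp.2 (by linarith)

/-- a power smaller than one is at most a small multiple, up to a constant -/
theorem rpow_le_eps {ε : ℝ} (hε : 0 < ε) : ∃ M : ℝ, 0 ≤ M ∧ ∀ t : ℝ, 0 ≤ t → t ^ (7 / 8 : ℝ) ≤ ε * t + M := by
  refine ⟨(ε ^ (-8 : ℝ)) ^ (7 / 8 : ℝ), by positivity, fun t ht => ?_⟩
  rcases le_total t (ε ^ (-8 : ℝ)) with h | h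
  · have h1 := Real.rpow_le_rpow ht h (show (0 : ℝ) ≤ 7 / 8 by norm_num)
    nlinarith [mul_nonneg hε.le ht]
  · have h0 : 0 < ε ^ (-8 : ℝ) := Real.rpow_pos_of_pos hε _
    have ht' : 0 < t := lt_of_lt_of_le h0 h
    have h1 : t ^ (-(1 / 8) : ℝ) ≤ ε := by
      calc t ^ (-(1 / 8) : ℝ) ≤ (ε ^ (-8 : ℝ)) ^ (-(1 / 8) : ℝ) :=
            Real.rpow_le_rpow_of_nonpos h0 h (by norm_num)
        _ = ε := by
            rw [← Real.rpow_mul hε.le]
            norm_num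
    have h2 : t ^ (7 / 8 : ℝ) = t ^ (-(1 / 8) : ℝ) * t := by
      conv_rhs => rw [← Real.rpow_one t, ← Real.rpow_mul ht, ← Real.rpow_add ht']
      norm_num
    rw [h2]
    have h3 : 0 ≤ (ε ^ (-8 : ℝ)) ^ (7 / 8 : ℝ) := by positivity
    nlinarith [mul_le_mul_of_nonneg_right h1 ht]

section prod

variable {b : ℕ → ℝ}

theorem mult_add (hb : Summable b) (hb0 : ∀ j, 0 ≤ b j) (t : ℝ) : Multipliable fun j => 1 + t * b j := by
  refine Real.multipliable_one_add_of_summable ?_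
  exact hb.mul_left t

theorem prod_bound (hb0 : ∀ j, 0 ≤ b j) (hb : Summable b) {u : ℕ → ℝ} (hu0 : ∀ j, 0 ≤ u j) (hu : Summable u)
    (t : ℝ) (ht : 0 ≤ t) (h : ∀ j, (t * b j) ^ (7 / 8 : ℝ) ≤ t ^ (7 / 8 : ℝ) * u j) :
    ∏' j, (1 + t * b j) ≤ Real.exp (3 * (∑' j, u j) * t ^ (7 / 8 : ℝ)) := by
  have h1 := (mult_add hb hb0 t).hasProd
  refine le_of_tendsto h1 (Eventually.of_forall fun s => ?_)
  calc ∏ j ∈ s, (1 + t * b j) ≤ ∏ j ∈ s, Real.exp (3 * (t ^ (7 / 8 : ℝ) * u j)) := by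
        refine Finset.prod_le_prod (fun j _ => by have := mul_nonneg ht (hb0 j); linarith) fun j _ => ?_
        refine (one_add_le_exp (mul_nonneg ht (hb0 j))).trans (Real.exp_le_exp.2 ?_)
        have := h j
        linarith
    _ = Real.exp (∑ j ∈ s, 3 * (t ^ (7 / 8 : ℝ) * u j)) := (Real.exp_sum _ _).symm
    _ ≤ _ := by
        refine Real.exp_le_exp.2 ?_
        rw [← Finset.mul_sum, ← Finset.mul_sum]
        have h2 : ∑ j ∈ s, u j ≤ ∑' j, u j := hu.sum_le_tsum _ fun j _ => hu0 j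
        have h3 : 0 ≤ t ^ (7 / 8 : ℝ) := Real.rpow_nonneg ht _
        have := mul_le_mul_of_nonneg_left h2 h3
        linarith

theorem prod_abs (hb0 : ∀ j, 0 ≤ b j) (hb : Summable b) (t : ℝ) (ht : 0 ≤ t) :
    |∏' j, (1 - t * b j)| ≤ ∏' j, (1 + t * b j) := by
  have h1 := (mult_add hb hb0 t).hasProd
  have h2 : HasProd (fun j => 1 - t * b j) (∏' j, (1 - t * b j)) := by
    have := (mult_add hb hb0 (-t))
    have h3 : (fun j => 1 + -t * b j) = fun j => 1 - t * b j := by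
      funext j
      ring
    rw [h3] at this
    exact this.hasProd
  refine le_of_tendsto_of_tendsto' (h2.abs) h1 fun s => ?_
  refine Finset.prod_le_prod (fun _ _ => abs_nonneg _) fun j _ => ?_
  have := mul_nonneg ht (hb0 j)
  rw [abs_le]
  constructor <;> linarith

end prod

theorem adG : S_AdG := by
  intro _ γ hγ η hη
  have hγp : ∀ j, 0 < γ j := fun j => hγ.pos.trans_le (hγ.mono.monotone (Nat.zero_le j))
  obtain ⟨g, hg⟩ : ∃ g : ℕ → ℝ, g = fun j => γ j ^ 2 := ⟨_, rfl⟩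
  have hgp : ∀ j, 0 < g j := fun j => by rw [hg]; exact pow_pos (hγp j) 2
  have hgm : StrictMono g := by
    intro i j hij
    rw [hg]
    exact pow_lt_pow_left₀ (hγ.mono hij) (hγp i).le two_ne_zero
  obtain ⟨b, hb⟩ : ∃ b : ℕ → ℝ, b = fun j => 1 / g j := ⟨_, rfl⟩
  obtain ⟨u, hu⟩ : ∃ u : ℕ → ℝ, u = fun j => 1 / g j ^ (7 / 8 : ℝ) := ⟨_, rfl⟩
  have hb0 : ∀ j, 0 ≤ b j := fun j => by rw [hb]; exact (one_div_pos.2 (hgp j)).le
  have hu0 : ∀ j, 0 ≤ u j := fun j => by rw [hu]; exact (one_div_pos.2 (Real.rpow_pos_of_pos (hgp j) _)).le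
  have hus : Summable u := by
    refine Summable.of_nonneg_of_le hu0 (fun j => ?_) hγ.sum
    rw [hu, hg]
    have := hγ.m1 j
    have h1 : (1 : ℝ) ≤ (mz (γ j : ℂ) : ℝ) := by exact_mod_cast this
    exact div_le_div_of_nonneg_right h1 (Real.rpow_nonneg (sq_nonneg _) _)
  have hbs : Summable b := by
    refine Summable.of_nonneg_of_le hb0 (fun j => ?_) (hus.mul_left (1 / g 0 ^ (1 / 8 : ℝ)))
    have h1 : g j = g j ^ (1 / 8 : ℝ) * g j ^ (7 / 8 : ℝ) := by
      rw [← Real.rpow_add (hgp j)]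
      norm_num
    have h2 : g 0 ^ (1 / 8 : ℝ) ≤ g j ^ (1 / 8 : ℝ) :=
      Real.rpow_le_rpow (hgp 0).le (hgm.monotone (Nat.zero_le j)) (by norm_num)
    have h3 : 0 < g 0 ^ (1 / 8 : ℝ) := Real.rpow_pos_of_pos (hgp 0) _
    have h4 : 0 < g j ^ (7 / 8 : ℝ) := Real.rpow_pos_of_pos (hgp j) _
    rw [hb, hu]
    calc 1 / g j = 1 / (g j ^ (1 / 8 : ℝ) * g j ^ (7 / 8 : ℝ)) := by rw [← h1]
      _ ≤ 1 / (g 0 ^ (1 / 8 : ℝ) * g j ^ (7 / 8 : ℝ)) := by
        apply one_div_le_one_div_of_le (mul_pos h3 h4)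
        exact mul_le_mul_of_nonneg_right h2 h4.le
      _ = 1 / g 0 ^ (1 / 8 : ℝ) * (1 / g j ^ (7 / 8 : ℝ)) := by
        rw [one_div_mul_one_div]
  have hub : ∀ t : ℝ, 0 ≤ t → ∀ j, (t * b j) ^ (7 / 8 : ℝ) ≤ t ^ (7 / 8 : ℝ) * u j := by
    intro t ht j
    rw [Real.mul_rpow ht (hb0 j), hb, hu]
    simp only
    rw [Real.div_rpow zero_le_one (hgp j).le, Real.one_rpow]
  obtain ⟨-, hGC0, -, -, hGCr, hGGc⟩ := Pool.Agent.Q237.CD.gcb g hgm (hgp 0) (by rw [hb] at hbs; exact hbs)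
  -- the two products
  have hGm : ∀ x : ℝ, Gm γ x = ∏' j, (1 + x ^ 2 * b j) := by
    intro x
    unfold Gm
    rw [hb, hg]
    simp only [mul_one_div]
  have hGG : ∀ t : ℝ, GG g t = ∏' j, (1 - t * b j) := by
    intro t
    unfold GG
    rw [hb]
    simp only [mul_one_div]
  have hGmG : ∀ x : ℝ, Gm γ x = GG g (-x ^ 2) := by
    intro x
    rw [hGm, hGG]
    congr 1
    funext j
    ring
  have hGmc : Continuous (Gm γ) := by
    have : Gm γ = fun x => GG g (-x ^ 2) := funext hGmG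
    rw [this]
    exact hGGc.comp (by fun_prop)
  obtain ⟨C, hC⟩ : ∃ C : ℝ, C = 3 * ∑' j, u j := ⟨_, rfl⟩
  have hC0 : 0 ≤ C := by
    rw [hC]
    exact mul_nonneg (by norm_num) (tsum_nonneg hu0)
  have hGmb : ∀ x : ℝ, Gm γ x ≤ Real.exp (C * (x ^ 2) ^ (7 / 8 : ℝ)) := by
    intro x
    rw [hGm, hC]
    exact prod_bound hb0 hbs hu0 hus _ (sq_nonneg x) (hub _ (sq_nonneg x))
  have habs : ∀ x : ℝ, |GG g (x ^ 2)| ≤ Gm γ x := by
    intro x
    rw [hGm, hGG]
    exact prod_abs hb0 hbs _ (sq_nonneg x)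
  have hGm0 : ∀ x, 0 ≤ Gm γ x := fun x => (abs_nonneg _).trans (habs x)
  have hX : ∀ x : ℝ, ‖GC (fun j => γ j ^ 2) ((x : ℂ) ^ 2)‖ = |GG g (x ^ 2)| := by
    intro x
    have h1 : (fun j => γ j ^ 2) = g := hg.symm
    rw [h1, ← Complex.ofReal_pow, hGCr, Complex.norm_real, Real.norm_eq_abs]
  -- the dominating function
  obtain ⟨M, hM0, hM⟩ := rpow_le_eps (show 0 < η / (8 * (C + 1)) by positivity)
  obtain ⟨K, hK⟩ : ∃ K : ℝ, K = (1 + 4 / η) * Real.exp (2 * C * M) := ⟨_, rfl⟩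
  have hdom : ∀ x : ℝ, Real.exp (-(η * x ^ 2)) * ((1 + x ^ 2) * Gm γ x ^ 2) ≤ K * Real.exp (-(η / 2) * x ^ 2) := by
    intro x
    have hx := sq_nonneg x
    have h1 : Gm γ x ^ 2 ≤ Real.exp (2 * C * M) * Real.exp (η / 4 * x ^ 2) := by
      calc Gm γ x ^ 2 ≤ Real.exp (C * (x ^ 2) ^ (7 / 8 : ℝ)) ^ 2 := pow_le_pow_left₀ (hGm0 x) (hGmb x) 2
        _ = Real.exp (2 * (C * (x ^ 2) ^ (7 / 8 : ℝ))) := by
          rw [← Real.exp_nat_mul]
          norm_num
        _ ≤ Real.exp (2 * C * M + η / 4 * x ^ 2) := by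
          refine Real.exp_le_exp.2 ?_
          have h2 := mul_le_mul_of_nonneg_left (hM (x ^ 2) hx) hC0
          have h3 : C * (η / (8 * (C + 1)) * x ^ 2) ≤ η / 8 * x ^ 2 := by
            have h4 : C * (η / (8 * (C + 1))) ≤ η / 8 := by
              rw [mul_div_assoc', div_le_div_iff₀ (by positivity) (by norm_num)]
              nlinarith
            nlinarith [mul_le_mul_of_nonneg_right h4 hx]
          nlinarith
        _ = _ := Real.exp_add _ _
    have h2 : 1 + x ^ 2 ≤ (1 + 4 / η) * Real.exp (η / 4 * x ^ 2) := by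
      have h3 := Real.add_one_le_exp (η / 4 * x ^ 2)
      have h4 : (1 + 4 / η) * (η / 4 * x ^ 2 + 1) = 1 + x ^ 2 + (η / 4 * x ^ 2 + 4 / η) := by
        field_simp
        ring
      have h5 : 0 ≤ 1 + 4 / η := by positivity
      have h6 : 0 ≤ η / 4 * x ^ 2 + 4 / η := by positivity
      have h7 := mul_le_mul_of_nonneg_left h3 h5
      linarith
    have h3 : (1 + x ^ 2) * Gm γ x ^ 2 ≤ ((1 + 4 / η) * Real.exp (η / 4 * x ^ 2)) *
        (Real.exp (2 * C * M) * Real.exp (η / 4 * x ^ 2)) :=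
      mul_le_mul h2 h1 (sq_nonneg _) (by positivity)
    calc Real.exp (-(η * x ^ 2)) * ((1 + x ^ 2) * Gm γ x ^ 2)
        ≤ Real.exp (-(η * x ^ 2)) * (((1 + 4 / η) * Real.exp (η / 4 * x ^ 2)) *
          (Real.exp (2 * C * M) * Real.exp (η / 4 * x ^ 2))) := mul_le_mul_of_nonneg_left h3 (Real.exp_pos _).le
      _ = K * (Real.exp (-(η * x ^ 2)) * Real.exp (η / 4 * x ^ 2) * Real.exp (η / 4 * x ^ 2)) := by
        rw [hK]
        ring
      _ = K * Real.exp (-(η / 2) * x ^ 2) := by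
        rw [← Real.exp_add, ← Real.exp_add]
        congr 2
        ring
  have hgauss : Integrable (fun x : ℝ => K * Real.exp (-(η / 2) * x ^ 2)) :=
    (integrable_exp_neg_mul_sq (by positivity)).const_mul K
  have hmeas : Measurable fun x : ℝ => ENNReal.ofReal (Real.exp (-(η * x ^ 2))) := by fun_prop
  have hfin : ∀ᵐ x : ℝ, ENNReal.ofReal (Real.exp (-(η * x ^ 2))) < ⊤ :=
    Eventually.of_forall fun x => ENNReal.ofReal_lt_top
  have htoR : ∀ x : ℝ, (ENNReal.ofReal (Real.exp (-(η * x ^ 2)))).toReal = Real.exp (-(η * x ^ 2)) := fun x =>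
    ENNReal.toReal_ofReal (Real.exp_pos _).le
  constructor
  · rw [integrable_withDensity_iff_integrable_smul' hmeas hfin]
    simp only [htoR, smul_eq_mul]
    refine hgauss.mono' (Continuous.aestronglyMeasurable (by fun_prop)) (Eventually.of_forall fun x => ?_)
    rw [Real.norm_eq_abs, abs_of_nonneg (by have := hGm0 x; positivity)]
    exact hdom x
  · rw [integral_withDensity_eq_integral_toReal_smul hmeas hfin]
    simp only [htoR, smul_eq_mul, hX]
    have hcont : Continuous fun x : ℝ => Real.exp (-(η * x ^ 2)) * |GG g (x ^ 2)| ^ 2 := by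
      have : Continuous fun x : ℝ => GG g (x ^ 2) := hGGc.comp (by fun_prop)
      fun_prop
    have hint : Integrable fun x : ℝ => Real.exp (-(η * x ^ 2)) * |GG g (x ^ 2)| ^ 2 := by
      refine hgauss.mono' hcont.aestronglyMeasurable (Eventually.of_forall fun x => ?_)
      rw [Real.norm_eq_abs, abs_of_nonneg (by positivity)]
      refine le_trans ?_ (hdom x)
      refine mul_le_mul_of_nonneg_left ?_ (Real.exp_pos _).le
      have h1 : |GG g (x ^ 2)| ^ 2 ≤ Gm γ x ^ 2 := pow_le_pow_left₀ (abs_nonneg _) (habs x) 2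
      nlinarith [sq_nonneg (Gm γ x), sq_nonneg x, mul_nonneg (sq_nonneg x) (sq_nonneg (Gm γ x))]
    rw [integral_pos_iff_support_of_nonneg (fun x => by positivity) hint]
    refine (hcont.isOpen_support).measure_pos volume ⟨0, ?_⟩
    have h1 : GG g 0 = 1 := by
      rw [hGG]
      simp
    simp [h1]

end Pool.Agent.Q149.EX
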